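import Pool.Agent.Lib.MP_defcf3_al.BR.BaseC

/-!
Module KER of project BR7: the kernel of the restriction to the kernel of a character of prime order.
-/

namespace BR7.H6

universe u

section Ext

variable {G A : Type*} [Group G] [CommGroup A] [MulDistribMulAction G A]

/-- Normalised cocycle identity. -/
structure NC (f : G → G → A) : Prop where
  one : f 1 1 = 1
  coc : ∀ g h k, f g h * f (g * h) k = (g • f h k) * f g (h * k)

theorem NC.one_left {f : G → G → A} (hf : NC f) (g : G) : f 1 g = 1 := by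
  have h := hf.coc 1 1 g
  rw [hf.one, one_mul, one_mul, one_mul, one_smul] at h
  exact (left_eq_mul.mp h)

theorem NC.one_right {f : G → G → A} (hf : NC f) (g : G) : f g 1 = 1 := by
  have h := hf.coc g 1 1
  rw [hf.one, mul_one, mul_one, smul_one, one_mul] at h
  exact (mul_eq_left.mp h)

/-- The extension defined by a cocycle. -/
@[ext] structure Ext (f : G → G → A) where
  a : A
  g : G

/-- Group structure of the extension. -/
@[reducible] def extGroup {f : G → G → A} (hf : NC f) : Group (Ext f) :=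
  letI : Mul (Ext f) := ⟨fun x y => ⟨x.a * (x.g • y.a) * f x.g y.g, x.g * y.g⟩⟩
  letI : One (Ext f) := ⟨⟨1, 1⟩⟩
  letI : Inv (Ext f) := ⟨fun x => ⟨(x.g⁻¹ • x.a * f x.g⁻¹ x.g)⁻¹, x.g⁻¹⟩⟩
  Group.ofLeftAxioms
    (by
      intro x y z
      refine Ext.ext ?_ (mul_assoc _ _ _)
      change (x.a * (x.g • y.a) * f x.g y.g) * ((x.g * y.g) • z.a) * f (x.g * y.g) z.g =
        x.a * (x.g • (y.a * (y.g • z.a) * f y.g z.g)) * f x.g (y.g * z.g)
      have h := hf.coc x.g y.g z.g
      rw [smul_mul', smul_mul', mul_smul]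
      calc x.a * (x.g • y.a) * f x.g y.g * (x.g • y.g • z.a) * f (x.g * y.g) z.g
          = x.a * (x.g • y.a) * (x.g • y.g • z.a) * (f x.g y.g * f (x.g * y.g) z.g) := by
            rw [mul_right_comm (x.a * (x.g • y.a)) (f x.g y.g) _, mul_assoc _ (f x.g y.g) _]
        _ = x.a * (x.g • y.a) * (x.g • y.g • z.a) * ((x.g • f y.g z.g) * f x.g (y.g * z.g)) := by
            rw [h]
        _ = _ := by simp only [mul_assoc])
    (by
      intro x
      refine Ext.ext ?_ (one_mul _)
      change 1 * ((1 : G) • x.a) * f 1 x.g = x.a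
      rw [hf.one_left, one_smul, one_mul, mul_one])
    (by
      intro x
      refine Ext.ext ?_ (inv_mul_cancel _)
      change (x.g⁻¹ • x.a * f x.g⁻¹ x.g)⁻¹ * (x.g⁻¹ • x.a) * f x.g⁻¹ x.g = 1
      rw [mul_assoc, inv_mul_cancel])

theorem alg {f : G → G → A} (hf : NC f) (n : ℕ) [Fact n.Prime] (χ : G → ZMod n)
    (hχ : ∀ g h, χ (g * h) = χ g + χ h) (hU : ∀ u v : G, χ u = 0 → χ v = 0 → f u v = 1)
    (s : G) (hs : χ s = 1) (y : A)
    (hy : ∀ u : G, χ u = 0 → y * f s u = ((s * u * s⁻¹) • y) * f (s * u * s⁻¹) s) :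
    ∃ a : A, (∀ g : G, g • a = a) ∧ ∃ Y : ℕ → A, ∀ g h : G,
      (Y (χ g).val * f (s ^ (χ g).val) ((s ^ (χ g).val)⁻¹ * g)) *
        (g • (Y (χ h).val * f (s ^ (χ h).val) ((s ^ (χ h).val)⁻¹ * h))) * f g h =
      a ^ carry n (χ g) (χ h) *
        (Y (χ (g * h)).val * f (s ^ (χ (g * h)).val) ((s ^ (χ (g * h)).val)⁻¹ * (g * h))) := by
  let _ := extGroup hf
  have hn : n.Prime := Fact.out
  have : NeZero n := ⟨hn.ne_zero⟩
  have mulg : ∀ x y : Ext f, (x * y).g = x.g * y.g := fun _ _ => rfl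
  have mula : ∀ x y : Ext f, (x * y).a = x.a * (x.g • y.a) * f x.g y.g := fun _ _ => rfl
  have oneg : (1 : Ext f).g = 1 := rfl
  have onea : (1 : Ext f).a = 1 := rfl
  have h1 : χ 1 = 0 := by
    have := hχ 1 1
    rw [mul_one] at this
    exact (left_eq_add.mp this)
  have hinv : ∀ g, χ g⁻¹ = - χ g := by
    intro g
    have := hχ g g⁻¹
    rw [mul_inv_cancel, h1] at this
    exact (neg_eq_of_add_eq_zero_right this.symm).symm
  have hpow : ∀ (g : G) (m : ℕ), χ (g ^ m) = m * χ g := by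
    intro g m
    induction m with
    | zero => simp [h1]
    | succ m ih =>
      rw [pow_succ, hχ, ih]
      push_cast
      ring
  have hspow : ∀ m : ℕ, χ (s ^ m) = m := fun m => by rw [hpow, hs, mul_one]
  -- embeddings
  let j : G → Ext f := fun u => ⟨1, u⟩
  let i : A → Ext f := fun a => ⟨a, 1⟩
  have jmul : ∀ u v, χ u = 0 → χ v = 0 → j (u * v) = j u * j v := by
    intro u v hu hv
    refine Ext.ext ?_ rfl
    rw [mula]
    simp [j, hU u v hu hv]
  have imul : ∀ a b, i (a * b) = i a * i b := by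
    intro a b
    refine Ext.ext ?_ ?_
    · rw [mula]; simp [i, hf.one]
    · rw [mulg]; simp [i]
  have ione : i 1 = 1 := rfl
  have ipow : ∀ (a : A) (m : ℕ), i (a ^ m) = i a ^ m := by
    intro a m
    induction m with
    | zero => simp [ione]
    | succ m ih => rw [pow_succ, imul, ih, pow_succ]
  let e : Ext f := ⟨y, s⟩
  -- normalising relation
  have hej : ∀ u, χ u = 0 → e * j u = j (s * u * s⁻¹) * e := by
    intro u hu
    refine Ext.ext ?_ ?_
    · rw [mula, mula]
      simp only [e, j, smul_one, mul_one, one_mul]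
      exact hy u hu
    · rw [mulg, mulg]
      simp only [e, j]
      group
  have hconj : ∀ u, χ u = 0 → χ (s * u * s⁻¹) = 0 := by
    intro u hu
    rw [hχ, hχ, hinv, hu]
    ring
  have hejm : ∀ (m : ℕ) (u : G), χ u = 0 → e ^ m * j u = j (s ^ m * u * (s ^ m)⁻¹) * e ^ m := by
    intro m
    induction m with
    | zero => intro u _; simp
    | succ m ih =>
      intro u hu
      rw [pow_succ, mul_assoc, hej u hu, ← mul_assoc, ih _ (hconj u hu), mul_assoc, ← pow_succ]
      congr 2
      rw [pow_succ]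
      group
  have eg : ∀ m : ℕ, (e ^ m).g = s ^ m := by
    intro m
    induction m with
    | zero => simp [oneg]
    | succ m ih => rw [pow_succ, mulg, ih, pow_succ]
  have hsn : χ (s ^ n) = 0 := by rw [hspow]; simp
  let a : A := (e ^ n).a
  have hen : e ^ n = i a * j (s ^ n) := by
    refine Ext.ext ?_ ?_
    · rw [mula]; simp [i, j, hf.one_left, a]
    · rw [mulg, eg]; simp [i, j]
  -- invariance
  have haU : ∀ v, χ v = 0 → v • a = a := by
    intro v hv
    have hv' : χ ((s ^ n)⁻¹ * v * s ^ n) = 0 := by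
      rw [hχ, hχ, hinv, hsn, hv]; ring
    have h := hejm n _ hv'
    rw [show s ^ n * ((s ^ n)⁻¹ * v * s ^ n) * (s ^ n)⁻¹ = v by group, hen, mul_assoc,
      ← jmul _ _ hsn hv', ← mul_assoc] at h
    have h2 := congrArg Ext.a h
    rw [mula, mula, mula] at h2
    simp only [i, j, one_smul, smul_one, mul_one, one_mul, mulg, hf.one_left, hf.one_right] at h2
    rw [hU v (s ^ n) hv hsn, mul_one] at h2
    exact h2.symm
  have has : s • a = a := by
    have hc : e * e ^ n = e ^ n * e := by rw [← pow_succ, ← pow_succ']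
    rw [hen] at hc
    have h3 : e * j (s ^ n) = j (s ^ n) * e := by
      rw [hej _ hsn]
      congr 2
      rw [← pow_succ', pow_succ]
      group
    rw [mul_assoc, ← h3, ← mul_assoc, ← mul_assoc] at hc
    have hc' := mul_right_cancel hc
    have h2 := congrArg Ext.a hc'
    rw [mula, mula] at h2
    simp only [i, e, hf.one_left, hf.one_right, one_smul, mul_one] at h2
    rw [mul_comm] at h2
    exact mul_right_cancel h2
  have hasm : ∀ m : ℕ, s ^ m • a = a := by
    intro m
    induction m with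
    | zero => simp
    | succ m ih => rw [pow_succ, mul_smul, has, ih]
  have hvan : ∀ g, χ ((s ^ (χ g).val)⁻¹ * g) = 0 := by
    intro g
    rw [hχ, hinv, hspow, ZMod.natCast_val, ZMod.cast_id]
    ring
  have hag : ∀ g : G, g • a = a := by
    intro g
    have : g = s ^ (χ g).val * ((s ^ (χ g).val)⁻¹ * g) := by group
    rw [this, mul_smul, haU _ (hvan g), hasm]
  refine ⟨a, hag, fun m => (e ^ m).a, ?_⟩
  -- the section
  let σ : G → Ext f := fun g => e ^ (χ g).val * j ((s ^ (χ g).val)⁻¹ * g)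
  have σa : ∀ g, (σ g).a = (e ^ (χ g).val).a * f (s ^ (χ g).val) ((s ^ (χ g).val)⁻¹ * g) := by
    intro g
    simp only [σ]
    rw [mula]
    simp only [j, smul_one, mul_one, eg]
  have σg : ∀ g, (σ g).g = g := by
    intro g
    simp only [σ]
    rw [mulg, eg]
    simp only [j]
    group
  have hje : ∀ (m : ℕ) (u : G), χ u = 0 → j u * e ^ m = e ^ m * j ((s ^ m)⁻¹ * u * s ^ m) := by
    intro m u hu
    have hu' : χ ((s ^ m)⁻¹ * u * s ^ m) = 0 := by
      rw [hχ, hχ, hinv, hu]; ring
    rw [hejm m _ hu']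
    congr 2
    group
  have key : ∀ g h, σ g * σ h = i (a ^ carry n (χ g) (χ h)) * σ (g * h) := by
    intro g h
    have hg := hvan g
    have hh := hvan h
    have hu' : χ ((s ^ (χ h).val)⁻¹ * ((s ^ (χ g).val)⁻¹ * g) * s ^ (χ h).val) = 0 := by
      rw [hχ, hχ, hinv, hg]; ring
    have h4 : σ g * σ h = e ^ ((χ g).val + (χ h).val) *
        j ((s ^ (χ h).val)⁻¹ * ((s ^ (χ g).val)⁻¹ * g) * s ^ (χ h).val *
          ((s ^ (χ h).val)⁻¹ * h)) := by
      simp only [σ]
      rw [jmul _ _ hu' hh, pow_add]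
      rw [mul_assoc, ← mul_assoc (j _) (e ^ _) _, hje _ _ hg]
      simp only [mul_assoc]
    have h5 : (s ^ (χ h).val)⁻¹ * ((s ^ (χ g).val)⁻¹ * g) * s ^ (χ h).val *
          ((s ^ (χ h).val)⁻¹ * h) = (s ^ ((χ g).val + (χ h).val))⁻¹ * (g * h) := by
      rw [pow_add]
      group
    rw [h5] at h4
    rw [h4, ipow]
    have hlt : (χ g).val + (χ h).val < 2 * n := by
      have := ZMod.val_lt (χ g)
      have := ZMod.val_lt (χ h)
      omega
    have hval : (χ (g * h)).val = ((χ g).val + (χ h).val) % n := by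
      rw [hχ, ZMod.val_add]
    simp only [σ]
    by_cases hc : (χ g).val + (χ h).val < n
    · have : carry n (χ g) (χ h) = 0 := Nat.div_eq_of_lt hc
      rw [this, pow_zero, one_mul, hval, Nat.mod_eq_of_lt hc]
    · have hc' : n ≤ (χ g).val + (χ h).val := not_lt.mp hc
      have h6 : (χ g).val + (χ h).val = n + (χ (g * h)).val := by
        rw [hval, Nat.mod_eq_sub_mod hc', Nat.mod_eq_of_lt (by omega)]
        omega
      have : carry n (χ g) (χ h) = 1 := by
        unfold carry
        rw [h6]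
        have hz := ZMod.val_lt (χ (g * h))
        rw [Nat.add_div_left _ hn.pos, Nat.div_eq_of_lt hz]
      rw [this, pow_one, h6, pow_add, hen, mul_assoc (i a), hje _ _ hsn, mul_assoc, mul_assoc]
      have h7 : χ ((s ^ (χ (g * h)).val)⁻¹ * s ^ n * s ^ (χ (g * h)).val) = 0 := by
        rw [hχ, hχ, hinv, hsn]; ring
      have h8 : χ ((s ^ (n + (χ (g * h)).val))⁻¹ * (g * h)) = 0 := by
        rw [hχ, hinv, hspow]
        push_cast
        rw [ZMod.natCast_val, ZMod.cast_id, ZMod.natCast_self]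
        ring
      rw [← jmul _ _ h7 h8]
      congr 3
      rw [pow_add]
      group
  intro g h
  have h9 := congrArg Ext.a (key g h)
  rw [mula (σ g) (σ h), mula (i _) (σ (g * h)), σa g, σa h, σa (g * h), σg g, σg h, σg (g * h)] at h9
  simp only [i, one_smul, hf.one_left, mul_one] at h9
  exact h9

end Ext

section Top

variable {G A : Type u} [Group G] [TopologicalSpace G] [IsTopologicalGroup G] [CommGroup A]
  [MulDistribMulAction G A]

theorem lc_smul (hD : Disc G A) {b : G → A} (hb : IsLocallyConstant b) :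
    IsLocallyConstant (fun p : G × G => p.1 • b p.2) := by
  rw [IsLocallyConstant.iff_exists_open]
  rintro ⟨g0, h0⟩
  refine ⟨{p | b p.2 = b h0} ∩ {p | g0⁻¹ * p.1 ∈ {g : G | g • b h0 = b h0}}, ?_, ?_, ?_⟩
  · refine IsOpen.inter ?_ ?_
    · exact (hb.isOpen_fiber (b h0)).preimage continuous_snd
    · exact (hD (b h0)).preimage (continuous_const.mul continuous_fst)
  · refine ⟨rfl, ?_⟩
    simp
  · rintro ⟨g, h⟩ ⟨h1, h2⟩
    have h1' : b h = b h0 := h1
    have h2' : (g0⁻¹ * g) • b h0 = b h0 := h2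
    change g • b h = g0 • b h0
    rw [h1', ← smul_left_cancel_iff g0⁻¹, ← mul_smul, h2', inv_smul_smul]

theorem cob_mem (hD : Disc G A) {b : G → A} (hb : IsLocallyConstant b) :
    (fun g h => b g * (g • b h) * (b (g * h))⁻¹) ∈ Z2 G A := by
  refine ⟨?_, ?_⟩
  · have h1 : IsLocallyConstant (fun p : G × G => b p.1) := hb.comp_continuous continuous_fst
    have h2 := lc_smul hD hb
    have h3 : IsLocallyConstant (fun p : G × G => b (p.1 * p.2)) :=
      hb.comp_continuous continuous_mul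
    exact (h1.mul h2).mul h3.inv
  · intro g h k
    simp only [smul_mul', smul_inv', mul_smul, mul_assoc]
    generalize b g = x1
    generalize g • b h = x2
    generalize b (g * h) = x3
    generalize g • h • b k = x4
    generalize b (g * (h * k)) = x5
    generalize g • b (h * k) = x6
    rw [show x1 * (x2 * (x3⁻¹ * (x3 * (x4 * x5⁻¹)))) = x1 * x2 * x4 * x5⁻¹ by
      rw [inv_mul_cancel_left]; simp only [mul_assoc]]
    rw [show x2 * (x4 * (x6⁻¹ * (x1 * (x6 * x5⁻¹)))) = x1 * x2 * x4 * x5⁻¹ * (x6⁻¹ * x6) by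
      simp only [mul_comm, mul_left_comm, mul_assoc]]
    rw [inv_mul_cancel, mul_one]

theorem ker : KerResStatement.{u} := by
  intro G A _ _ _ _ _ hD n hn χ hχ hχc U hU hH1 f hf hfU
  obtain ⟨b, hb, hbe⟩ := hfU
  have hprime : n.Prime := hn.out
  have : NeZero n := ⟨hprime.ne_zero⟩
  have hUopen : IsOpen (U : Set G) := by
    have : (U : Set G) = χ ⁻¹' {0} := by
      ext g
      simp [hU]
    rw [this]
    exact hχc.isOpen_fiber 0
  have hUclopen : IsClopen (U : Set G) := ⟨U.isClosed_of_isOpen hUopen, hUopen⟩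
  classical
  -- the extension of b by one
  let bt : G → A := fun g => if h : g ∈ U then b ⟨g, h⟩ else 1
  have hbt : IsLocallyConstant bt := by
    rw [IsLocallyConstant.iff_exists_open]
    intro g
    by_cases hg : g ∈ U
    · obtain ⟨V, hV, hgV, hVe⟩ := (IsLocallyConstant.iff_exists_open b).1 hb ⟨g, hg⟩
      refine ⟨Subtype.val '' V, hUopen.isOpenMap_subtype_val V hV, ⟨⟨g, hg⟩, hgV, rfl⟩, ?_⟩
      rintro _ ⟨x, hx, rfl⟩
      simp only [bt]
      rw [dif_pos x.2, dif_pos hg]
      exact hVe x hx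
    · refine ⟨(U : Set G)ᶜ, hUclopen.compl.isOpen, hg, ?_⟩
      intro x hx
      have hx' : x ∉ U := hx
      simp only [bt]
      rw [dif_neg hx', dif_neg hg]
  let d : G → G → A := fun g h => bt g * (g • bt h) * (bt (g * h))⁻¹
  have hdZ : d ∈ Z2 G A := cob_mem hD hbt
  have hdB : d ∈ B2 G A := ⟨bt, hbt, fun _ _ => rfl⟩
  let f1 : G → G → A := f * d⁻¹
  have hf1 : f1 ∈ Z2 G A := (Z2 G A).mul_mem hf ((Z2 G A).inv_mem hdZ)
  have hf1U : ∀ u v : G, u ∈ U → v ∈ U → f1 u v = 1 := by
    intro u v hu hv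
    have h1 := hbe ⟨u, hu⟩ ⟨v, hv⟩
    simp only [f1, d, Pi.mul_apply, Pi.inv_apply, bt]
    rw [dif_pos hu, dif_pos hv, dif_pos (U.mul_mem hu hv)]
    change f u v = b ⟨u, hu⟩ * (u • b ⟨v, hv⟩) * (b ⟨u * v, U.mul_mem hu hv⟩)⁻¹ at h1
    rw [h1]
    exact mul_inv_cancel _
  have hNC : NC f1 := ⟨hf1U 1 1 U.one_mem U.one_mem, hf1.2⟩
  have hlc : IsLocallyConstant (fun p : G × G => f1 p.1 p.2) := hf1.1
  by_cases hz : ∀ g, χ g = 0
  · refine ⟨1, fun g => smul_one g, ?_⟩
    have hf1one : f1 = 1 := by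
      funext u v
      exact hf1U u v ((hU u).2 (hz u)) ((hU v).2 (hz v))
    have hfd : f = d := by
      have : f * d⁻¹ = 1 := hf1one
      exact mul_inv_eq_one.mp this
    have hcup : cup n (1 : A) χ = 1 := by
      funext g h
      simp [cup]
    rw [hcup, inv_one, mul_one, hfd]
    exact hdB
  push Not at hz
  obtain ⟨s0, hs0⟩ := hz
  have h1 : χ 1 = 0 := by
    have := hχ 1 1
    rw [mul_one] at this
    exact (left_eq_add.mp this)
  have hpow : ∀ (g : G) (m : ℕ), χ (g ^ m) = m * χ g := by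
    intro g m
    induction m with
    | zero => simp [h1]
    | succ m ih =>
      rw [pow_succ, hχ, ih]
      push_cast
      ring
  have hinv : ∀ g, χ g⁻¹ = - χ g := by
    intro g
    have := hχ g g⁻¹
    rw [mul_inv_cancel, h1] at this
    exact (neg_eq_of_add_eq_zero_right this.symm).symm
  let s : G := s0 ^ ((χ s0)⁻¹).val
  have hs : χ s = 1 := by
    rw [hpow, ZMod.natCast_val, ZMod.cast_id]
    exact inv_mul_cancel₀ hs0
  -- the one-cocycle
  have hnorm : ∀ u, u ∈ U → s * u * s⁻¹ ∈ U := by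
    intro u hu
    rw [hU] at hu ⊢
    rw [hχ, hχ, hinv, hu]
    ring
  have hnorm' : ∀ u, u ∈ U → s⁻¹ * u * s ∈ U := by
    intro u hu
    rw [hU] at hu ⊢
    rw [hχ, hχ, hinv, hu]
    ring
  let c : U → A := fun v => f1 s (s⁻¹ * v * s) * (f1 v s)⁻¹
  have hc : IsLocallyConstant c := by
    have e1 : IsLocallyConstant (fun v : U => f1 s (s⁻¹ * (v : G) * s)) :=
      hlc.comp_continuous (f := fun v : U => ((s : G), (s⁻¹ * (v : G) * s : G)))
        (continuous_const.prodMk ((continuous_const.mul continuous_subtype_val).mul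
          continuous_const))
    have e2 : IsLocallyConstant (fun v : U => f1 (v : G) s) :=
      hlc.comp_continuous (f := fun v : U => ((v : G), (s : G)))
        (continuous_subtype_val.prodMk continuous_const)
    exact e1.mul e2.inv
  have hcc : ∀ v w : U, c (v * w) = c v * (v • c w) := by
    intro v w
    let _ := extGroup hNC
    have mulg : ∀ x y : Ext f1, (x * y).g = x.g * y.g := fun _ _ => rfl
    have mula : ∀ x y : Ext f1, (x * y).a = x.a * (x.g • y.a) * f1 x.g y.g := fun _ _ => rfl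
    let e : Ext f1 := ⟨1, s⟩
    let j : G → Ext f1 := fun u => ⟨1, u⟩
    have hj : ∀ x y : G, x ∈ U → y ∈ U → j (x * y) = j x * j y := by
      intro x y hx hy
      refine Ext.ext ?_ rfl
      rw [mula]
      simp [j, hf1U x y hx hy]
    have hk : ∀ x : U, e * j (s⁻¹ * x * s) = ⟨c x, x⟩ * e := by
      intro x
      refine Ext.ext ?_ ?_
      · rw [mula, mula]
        simp only [e, j, smul_one, mul_one, one_mul, c]
        rw [inv_mul_cancel_right]
      · rw [mulg, mulg]
        simp only [e, j]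
        group
    have h3 : (⟨c (v * w), v * w⟩ : Ext f1) * e = (⟨c v, v⟩ * ⟨c w, w⟩ : Ext f1) * e := by
      have h4 := hk (v * w)
      rw [show s⁻¹ * ((v * w : U) : G) * s = (s⁻¹ * v * s) * (s⁻¹ * w * s) by
        push_cast; group, hj _ _ (hnorm' _ v.2) (hnorm' _ w.2), ← mul_assoc, hk v, mul_assoc, hk w,
        ← mul_assoc] at h4
      exact h4.symm
    have h5 := congrArg Ext.a (mul_right_cancel h3)
    rw [mula] at h5
    simp only [hf1U _ _ v.2 w.2, mul_one] at h5
    exact h5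
  obtain ⟨y, hy⟩ := hH1 c hc hcc
  have hyrel : ∀ u : G, χ u = 0 → y * f1 s u = ((s * u * s⁻¹) • y) * f1 (s * u * s⁻¹) s := by
    intro u hu
    have hu' : u ∈ U := (hU u).2 hu
    have h3 := hy ⟨s * u * s⁻¹, hnorm u hu'⟩
    simp only [c] at h3
    rw [show s⁻¹ * (s * u * s⁻¹) * s = u by group] at h3
    change f1 s u * (f1 (s * u * s⁻¹) s)⁻¹ = ((s * u * s⁻¹) • y) * y⁻¹ at h3
    rw [mul_inv_eq_iff_eq_mul] at h3
    rw [h3, mul_comm y, mul_right_comm, inv_mul_cancel_right]
  obtain ⟨a, ha, Y, hY⟩ := alg hNC n χ hχ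
    (fun u v hu hv => hf1U u v ((hU u).2 hu) ((hU v).2 hv)) s hs y hyrel
  refine ⟨a, ha, ?_⟩
  let B : G → A := fun g => Y (χ g).val * f1 (s ^ (χ g).val) ((s ^ (χ g).val)⁻¹ * g)
  have hB : IsLocallyConstant B := by
    rw [IsLocallyConstant.iff_exists_open]
    intro g0
    have e1 : IsLocallyConstant (fun g : G => f1 (s ^ (χ g0).val) ((s ^ (χ g0).val)⁻¹ * g)) :=
      hlc.comp_continuous (f := fun g : G => ((s ^ (χ g0).val : G), ((s ^ (χ g0).val)⁻¹ * g : G)))
        (continuous_const.prodMk (continuous_const.mul continuous_id))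
    obtain ⟨V, hV, hgV, hVe⟩ := (IsLocallyConstant.iff_exists_open _).1 e1 g0
    refine ⟨V ∩ χ ⁻¹' {χ g0}, hV.inter (hχc.isOpen_fiber _), ⟨hgV, rfl⟩, ?_⟩
    rintro g ⟨hg1, hg2⟩
    have hg3 : χ g = χ g0 := hg2
    simp only [B]
    rw [hg3]
    exact congrArg _ (hVe g hg1)
  have hfin : f * (cup n a χ)⁻¹ = d * (fun g h => B g * (g • B h) * (B (g * h))⁻¹)⁻¹ := by
    have h3 : f = f1 * d := by simp only [f1, inv_mul_cancel_right]
    have h4 : f1 = cup n a χ * (fun g h => B g * (g • B h) * (B (g * h))⁻¹)⁻¹ := by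
      funext g h
      simp only [Pi.mul_apply, Pi.inv_apply, cup]
      rw [eq_mul_inv_iff_mul_eq]
      have h5 := hY g h
      rw [← mul_assoc, mul_inv_eq_iff_eq_mul, mul_comm (f1 g h)]
      exact h5
    have h5 : ∀ (C D E : G → G → A), C * D * E * C⁻¹ = E * D := by
      intro C D E
      rw [mul_comm, mul_assoc C D E, inv_mul_cancel_left, mul_comm]
    rw [h3]
    nth_rewrite 1 [h4]
    exact h5 _ _ _
  rw [hfin]
  exact (B2 G A).mul_mem hdB ((B2 G A).inv_mem ⟨B, hB, fun _ _ => rfl⟩)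

end Top

end BR7.H6
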